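import Pool.Agent.H11.NZ.Targets

/-! # Module PTN (helper23) -/

set_option autoImplicit false
set_option linter.unusedVariables false

open Equiv (Perm)

namespace Pool.Agent.H23.NZ.PTN

open Pool.Agent.H11.NZ Pool.Agent.H11.NY

/-- A normal subgroup `C` modulo which the `T i` are a socle acts trivially on the indices. -/
theorem triv_act {L I : Type} [Group L] [MulAction L I] (C A : Subgroup L) (hC : C.Normal)
    (T : I → Subgroup L) (hR : RSoc C A T) (z : L) (hz : z ∈ C) (i : I) : z • i = i := by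
  obtain ⟨-, -, -, hp, hn, -, hc, hy, -⟩ := hR
  by_contra hne
  refine hn i ?_
  rw [← hp i, Subgroup.commutator_le]
  intro x hx y hy'
  have h1 : z * x * z⁻¹ ∈ T (z • i) := hy z i x hx
  have h2 := hc (z • i) i hne _ h1 y hy'
  -- `x = c * x'`, `c = x * (z * x⁻¹ * z⁻¹)`
  have hcm : x * (z * x⁻¹ * z⁻¹) ∈ C := by
    have e : x * (z * x⁻¹ * z⁻¹) = (x * z * x⁻¹) * z⁻¹ := by group
    rw [e]
    exact C.mul_mem (hC.conj_mem z hz x) (C.inv_mem hz)
  have e : x * y * x⁻¹ * y⁻¹ = (x * (z * x⁻¹ * z⁻¹)) *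
      ((z * x * z⁻¹) * y * (z * x * z⁻¹)⁻¹ * y⁻¹) *
      (y * (x * (z * x⁻¹ * z⁻¹))⁻¹ * y⁻¹) := by
    group
  rw [commutatorElement_def, e]
  exact C.mul_mem (C.mul_mem hcm h2) (hC.conj_mem _ (C.inv_mem hcm) y)

/-- the counting -/
theorem count {Q : Type} [Group Q] [Finite Q] (N S : Subgroup Q) (q s : ℕ)
    (tt : Option (Fin q) → Q) (hs : q + 2 ≤ s)
    (h1 : ∀ k, s * Nat.card {x : Q // x ∈ N ∧ x⁻¹ * tt k * x ∈ S} ≤ Nat.card N)
    (h2 : ∀ x ∈ N, ∃ k, x⁻¹ * tt k * x ∈ S) : False := by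
  classical
  choose f hf using h2
  have h3 : Nat.card N ≤
      Nat.card (Σ k : Option (Fin q), {x : Q // x ∈ N ∧ x⁻¹ * tt k * x ∈ S}) := by
    refine Nat.card_le_card_of_injective
      (fun x : N => ⟨f x.1 x.2, ⟨x.1, x.2, hf x.1 x.2⟩⟩) ?_
    intro x y hxy
    have h4 : (x : Q) = (y : Q) := by
      have := congrArg (fun z : (Σ k : Option (Fin q),
        {x : Q // x ∈ N ∧ x⁻¹ * tt k * x ∈ S}) => (z.2 : Q)) hxy
      exact this
    exact Subtype.ext h4
  rw [Nat.card_sigma] at h3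
  have h5 : s * Nat.card N ≤ ∑ k : Option (Fin q), Nat.card N := by
    calc s * Nat.card N ≤ s * ∑ k : Option (Fin q),
          Nat.card {x : Q // x ∈ N ∧ x⁻¹ * tt k * x ∈ S} := Nat.mul_le_mul_left _ h3
      _ = ∑ k : Option (Fin q), s * Nat.card {x : Q // x ∈ N ∧ x⁻¹ * tt k * x ∈ S} :=
          Finset.mul_sum _ _ _
      _ ≤ ∑ k : Option (Fin q), Nat.card N := Finset.sum_le_sum fun k _ => h1 k
  rw [Finset.sum_const, Finset.card_univ, Fintype.card_option, Fintype.card_fin,
    smul_eq_mul] at h5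
  have h6 : 0 < Nat.card N := Nat.card_pos
  have h7 := Nat.le_of_mul_le_mul_right h5 h6
  omega

theorem pf_ptn : T_XC → T_RS → T_XNT → T_RSS → T_MV → T_FPR → T_PTN := by
  intro hXC hRS hXNT hRSS hMV hFPR e
  obtain ⟨m, hm⟩ := hFPR (e + 2)
  obtain ⟨B0, hB0⟩ := hMV m
  refine ⟨max B0 6, ?_⟩
  intro L Ω _ _ _ _ ψ X hX hSch M A hM hXM hA hAK hAM hAA hch q p a h hP hT
  obtain ⟨hq, hq5, hqe, hp, hpe, haq, hah, hhp, ha1, hha, hsup⟩ := hP
  -- the supports
  have hsa : max B0 6 ≤ (ψ a : Perm Ω).support.card := by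
    have := hsup 1 0 (by simpa using ha1)
    simpa using this
  have hsh : ∀ κ : ℕ, max B0 6 ≤ (ψ (h * a ^ κ) : Perm Ω).support.card := by
    intro κ
    have e1 : h * a ^ κ = a ^ κ * h ^ 1 := by
      rw [pow_one]
      exact ((show Commute a h from hah).pow_left κ).eq.symm
    rw [e1]
    refine hsup κ 1 fun h1 => hha ?_
    rw [pow_one] at h1
    rw [eq_inv_of_mul_eq_one_right h1]
    exact Subgroup.inv_mem _ (Subgroup.pow_mem _ (Subgroup.mem_zpowers a) κ)
  have hcard : 5 ≤ Fintype.card Ω := by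
    have h1 : (ψ a : Perm Ω).support.card ≤ Fintype.card Ω := Finset.card_le_univ _
    have h2 : 6 ≤ max B0 6 := le_max_right _ _
    omega
  -- the core
  have hC0n : M.normalCore.Normal := Subgroup.normalCore_normal M
  have hC0M : M.normalCore ≤ M := Subgroup.normalCore_le M
  have hC0 : M.normalCore ≤ ψ.ker := by
    intro t ht
    rw [MonoidHom.mem_ker]
    by_contra h1
    exact hXM ((hXC L Ω ψ X hcard hX M.normalCore (fun x _ c hc => hC0n.conj_mem c hc x)
      ⟨t, ht, h1⟩).trans hC0M)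
  have hZn : (A ⊓ M.normalCore).Normal := by
    have := hA
    exact Subgroup.normal_inf_normal A M.normalCore
  have hZA : A ⊓ M.normalCore < A := by
    refine lt_of_le_of_ne inf_le_left fun h1 => hAM ?_
    have h2 : A ≤ M.normalCore := by
      rw [← h1]
      exact inf_le_right
    exact h2.trans hC0M
  obtain ⟨I, iF, iD, iA, T, hRS1⟩ := hRS L A (A ⊓ M.normalCore) hA hZn hZA hAA (by
    intro A' hA' hZA' hA'A
    rcases hch A' hA' hA'A with h1 | h1
    · left
      refine le_antisymm (le_inf hA'A ?_) hZA'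
      have := hA'
      exact Subgroup.normal_le_normalCore.2 h1
    · exact Or.inr h1)
  have hRC : RSoc M.normalCore A T := by
    obtain ⟨r1, r2, r3, r4, r5, r6, r7, r8, r9⟩ := hRS1
    refine ⟨r1, r2, r3, r4, fun i h1 => r5 i (le_inf (r3 i) h1), ?_, ?_, r8, ?_⟩
    · intro i A' hA' hn
      rcases r6 i A' hA' hn with h1 | h1
      · exact Or.inl (h1.trans inf_le_right)
      · exact Or.inr (h1.trans (sup_le_sup_left inf_le_right _))
    · intro i j hij x hx y hy
      exact (r7 i j hij x hx y hy).2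
    · exact r9.trans (sup_le_sup_left inf_le_right _)
  have hmv := hXNT L Ω I ψ X hcard hX hSch A M.normalCore T hAK hC0n hC0 hRC
  have hmove := hB0 L Ω I ψ X hX hRC.2.1 hmv
  -- the quotient
  have htriv : ∀ z ∈ M.normalCore, MulAction.toPermHom L I z = 1 := by
    intro z hz
    ext i
    exact triv_act M.normalCore A hC0n T hRC z hz i
  let Φ : L ⧸ M.normalCore →* Perm I := QuotientGroup.lift M.normalCore
    (MulAction.toPermHom L I) htriv
  let iQ : MulAction (L ⧸ M.normalCore) I := MulAction.compHom I Φ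
  let π : L →* L ⧸ M.normalCore := QuotientGroup.mk' M.normalCore
  have hπs : Function.Surjective π := QuotientGroup.mk'_surjective _
  have hπk : π.ker = M.normalCore := QuotientGroup.ker_mk' _
  have hπa : ∀ (y : L) (i : I), π y • i = y • i := fun y i => rfl
  have hSoc := hRSS L I (L ⧸ M.normalCore) M.normalCore A T π hπs hπk hRC hπa
  have hsupt : A ⊔ M = ⊤ := by
    refine hM.2 _ (lt_of_le_of_ne le_sup_right fun h1 => hAM ?_)
    rw [h1]
    exact le_sup_left
  have hF := hm (L ⧸ M.normalCore) I (A.map π) (fun i => (T i).map π) hSoc (M.map π) (by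
    intro y
    obtain ⟨l, rfl⟩ := hπs y
    have h1 : l ∈ ((A ⊔ M : Subgroup L) : Set L) := by
      rw [hsupt]
      trivial
    have := hA
    rw [Subgroup.normal_mul] at h1
    obtain ⟨a', ha', m', hm', rfl⟩ := Set.mem_mul.1 h1
    refine ⟨π a', Subgroup.mem_map_of_mem _ ha', ?_⟩
    rw [map_mul, inv_mul_cancel_left]
    exact Subgroup.mem_map_of_mem _ hm') (by
    intro h1
    refine hAM ?_
    rw [Subgroup.map_le_map_iff, hπk] at h1
    exact h1.trans (sup_le le_rfl hC0M))
  have hmt : ∀ t : L, B0 ≤ (ψ t : Perm Ω).support.card →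
      m ≤ (Finset.univ.filter fun i : I => π t • i ≠ i).card := fun t ht => hmove t ht
  refine count (A.map π) (M.map π) q (e + 2)
    (fun k => match k with
      | none => π a
      | some κ => π (h * a ^ (κ : ℕ))) (by omega) ?_ ?_
  · intro k
    match k with
    | none => exact hF (π a) (hmt a ((le_max_left _ _).trans hsa))
    | some κ => exact hF (π (h * a ^ (κ : ℕ))) (hmt _ ((le_max_left _ _).trans (hsh _)))
  · intro x hx
    obtain ⟨y, hy, rfl⟩ := Subgroup.mem_map.1 hx
    rcases hT y with h1 | ⟨κ, hκ, h1⟩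
    · refine ⟨none, ?_⟩
      show (π y)⁻¹ * π a * π y ∈ M.map π
      rw [← map_inv, ← map_mul, ← map_mul]
      exact Subgroup.mem_map_of_mem _ h1
    · refine ⟨some ⟨κ, hκ⟩, ?_⟩
      show (π y)⁻¹ * π (h * a ^ κ) * π y ∈ M.map π
      rw [← map_inv, ← map_mul, ← map_mul]
      exact Subgroup.mem_map_of_mem _ h1

end Pool.Agent.H23.NZ.PTN
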